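import Pool.Agent.H.MP_e60a9a_co.C

set_option autoImplicit false

namespace Pool.Agent.Results.MP_19b511_co.Q2Neg

open Finset Pool.Agent.H.MP_e60a9a_co

def bL : List ℤ := [0, 0, 0, 0, 0, 0, 0, 175344113533306798080000, 6382525732612367450112000,
  71628744778792493580288000, 369197933851436906151936000, 990965787569450161717248000,
  1519304393080076609470464000, 1433351114914489744464691200, 881200159323633761336524800,
  368654666122911450291609600, 108422549283963985226956800, 22966839145438291937433600,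
  3566314501989157154396160, 410881432660539990589440, 35371825154559469255680,
  2280173217334262490240, 109709477845871904000, 3901689134514243072, 100668778465102848,
  1824285982611456, 21931269255168, 156515573760, 500318208]

lemma c1 : ∀ r < 14, ∀ s < 14 - r, isZ (kaL 14 r s) = true := by decide +kernel

lemma c2 : vl (1 : ℤ) (leL 14) ≠ 0 := by decide +kernel

lemma c3 : isZ (.add (.mul (hookL 14) (tL 13 14)) (.mul (.lin (-1) 0) (.mul (leL 14) (lsum 28 fun k =>
    .mul (.lin (bL.getD (k + 1) 0) 0) (lprod (k + 1) fun i => .lin (-i) 1))))) = true := by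
  decide +kernel

lemma c4 : (tri (-1 / 5) bL).2.1 ^ 2 < (tri (-1 / 5) bL).1 * (tri (-1 / 5) bL).2.2 := by
  decide +kernel

theorem result : ∃ (n : ℕ) (μ l : YoungDiagram) (P : Λ) (b : ℕ → ℚ),
    1 ≤ n ∧ μ.card = n ∧ l.card = n ∧ (∀ Q, IsJackP α⁻¹ n μ Q ↔ Q = P) ∧
    jackSchur μ l P = ∑ k ∈ Icc 1 n, (b (n - k) : K) * ∏ i ∈ range k, (α - i) ∧ b n = 0 ∧
    (∃ j < n, b j ≠ 0) ∧ ∃ z : ℂ, z.im ≠ 0 ∧ ∑ j ∈ range (n + 1), (b j : ℂ) * z ^ (n - j) = 0 := by
  obtain ⟨P, h1, h2⟩ := main 26 13 14 rfl rfl c1 c2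
  obtain ⟨z, z1, z2⟩ := nonreal bL _ c4
  refine ⟨28, rect 2 14, rect 14 2, P, fun j => (bL.getD (28 - j) 0 : ℤ), by omega, rfl, rfl, h1, ?_,
    by simp [bL], ⟨0, by omega, by simp [bL]⟩, z, z1, ?_⟩
  · have h3 := vl_eq α c3
    rw [← h2, vl, vl_sum, mul_comm] at h3
    rw [mul_left_cancel₀ (vl_ne c2) h3, ← Ico_add_one_right_eq_Icc, sum_Ico_eq_sum_range]
    refine sum_congr rfl fun k hk => ?_
    have := mem_range.1 hk
    simp only [vl_prod, vl, Int.cast_zero, mul_zero, add_zero, Int.cast_natCast, Int.cast_neg,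
      Int.cast_one, mul_one, Rat.cast_intCast, add_comm 1 k]
    rw [show 28 - (28 - (k + 1)) = k + 1 by omega]
    exact congrArg _ (prod_congr rfl fun i _ => by ring)
  · rw [ev_range z bL 29 (by simp [bL]), ← sum_range_reflect] at z2
    simpa only [Rat.cast_intCast] using z2

end Pool.Agent.Results.MP_19b511_co.Q2Neg
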